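import Pool.Agent.H65.NV.PTargets
import Pool.Agent.H61.NVK.AsmE
import Pool.Agent.H24.NVK.MIA
import Pool.Agent.H57.NVK.MIP
import Pool.Agent.H57.NVK.FDN
import Pool.Agent.H32.NVK.MIS
import Pool.Agent.H32.NVK.NRI
import Pool.Agent.H32.NVK.GOD
import Pool.Agent.H32.NVK.CHD
import Pool.Agent.H1.NVK.MPW
import Pool.Agent.H1.NVK.NRC
import Pool.Agent.H72.NVK.MPD
import Pool.Agent.H2.NVK.NRM
import Pool.Agent.H50.NVK.FRA
import Pool.Agent.H50.NVK.GLF
import Pool.Agent.H40.NVK.FRB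
import Pool.Agent.H21.NVK.LTO
import Pool.Agent.H42.NVK.LT
import Pool.Agent.H42.NVK.LOC
import Pool.Agent.H49.NVK.WLP
import Pool.Agent.H63.NVK.WDN
import Pool.Agent.H13.NVK.LOP
import Pool.Agent.H31.NVK.NEL
import Pool.Agent.H60.NVK.FMD
import Pool.Agent.H60.NVK.SDS
import Pool.Agent.H36.NVK.ANF
import Pool.Agent.H81.NVK.ZFP
import Pool.Agent.H99.NVK.FMZ
import Pool.Agent.H99.NVK.UFC
import Pool.Agent.H58.NVK.NRA
import Pool.Agent.H4.NVK.LC
import Pool.Agent.H20.NVK.LB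

/-! # NVK, part L (local weights): assembly (helper91) -/

set_option autoImplicit false

open NumberField

namespace Pool.Agent.H91.NV

open Pool.Agent.H65.CM4 Pool.Agent.H61.NVK Pool.Agent.H89.NV

variable (k : Type) [Field k] [NumberField k] [IsTotallyReal k]

/-- the conversion of LC to the form of part P -/
theorem c_LC (h : T_LC k) : Pool.Agent.H65.NV.T_LC k := by
  intro f q m₁ m₂ e A b w hf hq he hA hP hb hw
  obtain ⟨h1, h2⟩ := h f q e A m₁ m₂ b w hf hq he hA hb hP hw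
  refine ⟨h1, ?_⟩
  have hnq : (0 : ℝ) < nm q := by
    unfold nm
    have : Ideal.absNorm q ≠ 0 := by rwa [Ne, Ideal.absNorm_eq_zero_iff]
    positivity
  have hne : (0 : ℝ) < nm e := by
    unfold nm
    have : Ideal.absNorm e ≠ 0 := by rwa [Ne, Ideal.absNorm_eq_zero_iff]
    positivity
  have hqe : nm (q * e) = nm q * nm e := by
    unfold nm
    rw [map_mul]
    push_cast
    rfl
  unfold mI at h2
  rw [hqe] at h2
  have h3 : Pool.Agent.H65.NV.Nc f m₁ m₂ e A b = Ncb f m₁ m₂ e A b := rfl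
  rw [h3]
  field_simp at h2 ⊢
  linarith

/-- the conversion of LB to the form of part P -/
theorem c_LB (h : T_LB k) : Pool.Agent.H65.NV.T_LB k := by
  intro f q m₁ m₂ e A w hf hq he hA hP hw1 hw2
  have hw2' : Per f (ni k 2 * A) w := by
    intro x hx y hy
    rw [mul_assoc] at hy
    exact hw2 x hx y hy
  obtain ⟨h1, h2, h3⟩ := h f q e A m₁ m₂ w hf hq he hA hP hw1 hw2'
  refine ⟨?_, h2, ?_⟩
  · intro b hb x hx
    rw [← mul_assoc] at hx
    exact h1 b hb x hx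
  · have h4 : nm (ni k 2 * A) = 2 ^ dg k * nm A := by
      unfold nm ni dg
      rw [map_mul, Ideal.absNorm_span_singleton]
      have h5 : Algebra.norm ℤ ((2 : ℕ) : 𝓞 k) = 2 ^ Module.finrank ℚ k := by
        have h6 := Algebra.norm_algebraMap (S := 𝓞 k) (2 : ℤ)
        rw [RingOfIntegers.rank] at h6
        simpa using h6
      rw [h5]
      push_cast
      simp
    unfold mI at h3
    rw [h4] at h3
    have h7 : (ni k 2 * A) * f = ni k 2 * (A * f) := mul_assoc _ _ _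
    rw [h7] at h3
    rw [div_eq_inv_mul, div_eq_inv_mul, ← one_div, ← one_div]
    exact h3

/-- the results of part L -/
structure ResL : Prop where
  wdn : T_WDN k
  nel : T_NEL k
  ufc : T_UFC k
  fmc : T_FMC k
  lc : Pool.Agent.H65.NV.T_LC k
  lb : Pool.Agent.H65.NV.T_LB k
  fdn : T_FDN k

theorem partL (hRSB : T_RSB k) (hIDL : T_IDL k) (hBMD : T_BMD k)
    (hTRV : Pool.Agent.H89.NV.T_TRV k)
    (hFIB : T_FIB k) (hPZ1 : T_PZ1 k) : ResL k := by
  have hMIA : T_MIA k := H24.NVK.pf_MIA k hRSB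
  have hMIP : T_MIP k := H57.NVK.pf_MIP k hRSB hMIA
  have hMIS : T_MIS k := H32.NVK.pf_MIS k hRSB
  have hMPW : T_MPW k := H1.NVK_MPW.pf_MPW k hMIA hMIP
  have hMPD : T_MPD k := H72.NVK.pf_MPD k hMIA hMPW
  have hNRI : T_NRI k := H32.NVK.pf_NRI k hRSB
  have hGOD : T_GOD k := H32.NVK.pf_GOD k hBMD
  have hCHD : T_CHD k := H32.NVK.pf_CHD k hBMD hNRI
  have hNRM : T_NRM k := H2.NVK.pf_NRM k hRSB hIDL hGOD hNRI
  have hLTO : T_LTO k := H21.NVK.pf_LTO k hRSB H50.NVK.pf_FRA H40.NVK.pf_FRB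
  have hLT : T_LT k := H42.NVK.pf_LT k hIDL hGOD hNRI hMIA hMIS hNRM hLTO
  have hLOC : T_LOC k := H42.NVK.pf_LOC k hLT
  have hWLP : T_WLP k := H49.NVK_WLP.pf_WLP k hNRI hGOD hIDL
  have hLOP : T_LOP k := H13.NVK.pf_LOP k hWLP hMPD
  have hANF : T_ANF k := H36.NVK.pf_ANF k hCHD hTRV
  have hSDS : T_SDS k := H60.NVK.pf_SDS k
  have hZFP : T_ZFP k := H81.NVK.pf_ZFP k Pool.Agent.H61.NVK.e_ZPR
  have hFMD : T_FMD k := H60.NVK.pf_FMD k hLOC hLOP
  have hFMZ : T_FMZ k := H99.NVKF.pf_FMZ k hPZ1 hRSB hIDL hBMD hTRV hFIB hANF hSDS hZFP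
  have hNRC : T_NRC k := H1.NVK_NRC.pf_NRC k hRSB
  have hNRA : T_NRA k := H58.NVK.pf_NRA k hRSB hIDL hNRI hMIS hNRM
  exact {
    wdn := H63.NVK_WDN.pf_WDN k hNRI hGOD hIDL
    nel := H31.NVK.pf_NEL k hLOC H50.NVK.pf_GLF hLOP hIDL
    ufc := H99.NVK.pf_UFC k hANF hSDS
    fmc := fun f R hf _ => ⟨(hFMD f R hf).1, (hFMD f R hf).2, hFMZ f R hf⟩
    lc := c_LC k (H4.NVK.pf_LC hMIA hMPW hNRI hNRC hNRA hIDL)
    lb := c_LB k (H20.NVK.pf_LB k hMIA hMPW hNRA)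
    fdn := H57.NVK.pf_FDN k }

end Pool.Agent.H91.NV
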