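import Pool.Agent.H89.NV.TU

/-!
# Targets of part L: local weights (helper91)

Means over fractional systems of representatives, roots of quadratic polynomials modulo prime powers,
the local means at the small primes.  All statements are local or follow from the Chinese remainder
theorem; no condition on the primes above `2` is needed.
-/

set_option autoImplicit false

open MeasureTheory Set Filter NumberField NumberField.InfinitePlace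
open scoped Real

namespace Pool.Agent.H91.NV

open Pool.Agent.H65.CM4 Pool.Agent.H61.NVK Pool.Agent.H89.NV

section Defs

variable {k : Type} [Field k] [NumberField k]

open Classical in
/-- the mean over `M` modulo `I * M` -/
noncomputable def mI (M I : Ideal (𝓞 k)) (g : 𝓞 k → ℝ) : ℝ :=
  (1 / nm I) * ∑ x ∈ (Rs (I * M)).filter (fun x => x ∈ M), g x

/-- `g` is periodic modulo `I * M` on `M` -/
def Per (M I : Ideal (𝓞 k)) (g : 𝓞 k → ℝ) : Prop := ∀ x ∈ M, ∀ y ∈ I * M, g (x + y) = g x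

/-- the mean over the coefficients `b ∈ f`, `c ∈ A f ^ 2` modulo `q` -/
noncomputable def mBC (f A q : Ideal (𝓞 k)) (F : 𝓞 k → 𝓞 k → ℝ) : ℝ :=
  mI f q (fun b => mI (A * f ^ 2) q (fun c => F b c))

/-- `F` is periodic modulo `q` in both coefficients -/
structure PBC (f A q : Ideal (𝓞 k)) (F : 𝓞 k → 𝓞 k → ℝ) : Prop where
  perB : ∀ b ∈ f, ∀ c ∈ A * f ^ 2, ∀ x ∈ q * f, F (b + x) c = F b c
  perC : ∀ b ∈ f, ∀ c ∈ A * f ^ 2, ∀ x ∈ q * (A * f ^ 2), F b (c + x) = F b c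

open Classical in
/-- the local weight at one small prime, second moment; `t` = the number of `n₁`, `n₂` that
contain `P` -/
noncomputable def wl (f : Ideal (𝓞 k)) (P : PrI k) (t : ℕ) (e A : Ideal (𝓞 k)) (b c : 𝓞 k) : ℝ :=
  if ¬ Dis (P.1 * f) (4 * c - b ^ 2) then
    (if t = 0 then (1 + chi f P b c / np P) ^ 2 else
      if t = 1 then -(1 + chi f P b c / np P) * N1 f P.1 e A b c else (N2 f P.1 e A b c : ℝ))
  else 0

open Classical in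
/-- the local weight at one small prime, first moment; `t` = the number of `n` that
contain `P` -/
noncomputable def wf (f : Ideal (𝓞 k)) (P : PrI k) (t : ℕ) (b c : 𝓞 k) : ℝ :=
  if ¬ Dis (P.1 * f) (4 * c - b ^ 2) then (if t = 0 then 1 + chi f P b c / np P else -1) else 0

open Classical in
/-- the valuation, cut at `2` -/
noncomputable def vi (P : PrI k) (I : Ideal (𝓞 k)) : ℕ :=
  if P.1 ^ 2 ∣ I then 2 else if P.1 ∣ I then 1 else 0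

open Classical in
/-- the number of elements of `n₁`, `n₂` equal to `P` -/
noncomputable def tt (n₁ n₂ : Finset (PrI k)) (P : PrI k) : ℕ :=
  (if P ∈ n₁ then 1 else 0) + (if P ∈ n₂ then 1 else 0)

/-- the local means, second moment: `x = 1 / N P`, `i`, `j` = valuations of `A`, `e` -/
noncomputable def gl (x : ℝ) (t i j : ℕ) : ℝ :=
  if t = 0 then
    (1 - x) * (if i = 0 then 1 + x + x ^ 2 else if i = 1 then (1 + x) ^ 2 + x else (1 + x) ^ 2)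
  else if t = 1 then
    -(1 - x) * (if i = 0 then (if 1 ≤ j then 1 + 2 * x else 0) else
      if i = 1 then (1 + x) * (1 + (if 1 ≤ j then 1 else 0)) + x else
        (1 + x) * (1 + (if 1 ≤ j then 1 else 0)))
  else
    (1 - x) * (if i = 0 then (if 1 ≤ j then 1 + x else 0) + (if 2 ≤ j then 1 else 0) else
      if i = 1 then (if 1 ≤ j then 3 + x else 0) + (if 2 ≤ j then 1 else 0) else
        1 + (if 1 ≤ j then 2 else 0) + (if 2 ≤ j then 1 else 0))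

/-- the coefficients of the local means -/
noncomputable def Fl (x : ℝ) (t i j : ℕ) : ℝ :=
  gl x t i j - (if i = 0 then 0 else gl x t (i - 1) j) - (if j = 0 then 0 else gl x t i (j - 1)) +
    (if i = 0 ∨ j = 0 then 0 else gl x t (i - 1) (j - 1))

end Defs

section

variable (k : Type) [Field k] [NumberField k] [IsTotallyReal k]

/-! ### Means -/

/-- (MIA) means: elementary facts. -/
def T_MIA : Prop :=
  ∀ M I : Ideal (𝓞 k), M ≠ ⊥ → I ≠ ⊥ → mI M I (fun _ => 1) = 1 ∧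
    (∀ (g : 𝓞 k → ℝ) (J : Ideal (𝓞 k)), J ≠ ⊥ → Per M I g → mI M (J * I) g = mI M I g) ∧
    (∀ (g : 𝓞 k → ℝ) (t : 𝓞 k), Per M I g → t ∈ M → mI M I (fun x => g (x + t)) = mI M I g) ∧
    (∀ g h : 𝓞 k → ℝ, (∀ x ∈ M, g x = h x) → mI M I g = mI M I h) ∧
    (∀ g h : 𝓞 k → ℝ, mI M I (fun x => g x + h x) = mI M I g + mI M I h) ∧
    (∀ (r : ℝ) (g : 𝓞 k → ℝ), mI M I (fun x => r * g x) = r * mI M I g) ∧
    (∀ g h : 𝓞 k → ℝ, (∀ x ∈ M, g x ≤ h x) → mI M I g ≤ mI M I h)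

/-- (MIP) means: products. -/
def T_MIP : Prop :=
  ∀ (M I J : Ideal (𝓞 k)) (g h : 𝓞 k → ℝ), M ≠ ⊥ → I ≠ ⊥ → J ≠ ⊥ → IsCoprime I J → Per M I g →
    Per M J h → mI M (I * J) (fun x => g x * h x) = mI M I g * mI M J h

/-- (MIS) means: the local coordinate. -/
def T_MIS : Prop :=
  ∀ (M : Ideal (𝓞 k)) (P : PrI k) (m : ℕ) (φ : 𝓞 k) (g : 𝓞 k → ℝ), M ≠ ⊥ → φ ∈ M →
    φ ∉ P.1 * M → Per M (P.1 ^ m) g →
    mI M (P.1 ^ m) g = mI ⊤ (P.1 ^ m) (fun x => g (φ * x))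

open Classical in
/-- (MPW) means: products over primes, with a weight of coprime modulus. -/
def T_MPW : Prop :=
  ∀ (M q : Ideal (𝓞 k)) (R : Finset (PrI k)) (w : 𝓞 k → ℝ) (g : PrI k → 𝓞 k → ℝ), M ≠ ⊥ →
    q ≠ ⊥ → (∀ P ∈ R, ¬ P.1 ∣ q) → Per M q w → (∀ P ∈ R, Per M (P.1 ^ 2) (g P)) →
    mI M (q * idS R ^ 2) (fun x => w x * ∏ P ∈ R, g P x) =
      mI M q w * ∏ P ∈ R, mI M (P.1 ^ 2) (g P)

open Classical in
/-- (MPD) means over both coefficients: products over primes. -/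
def T_MPD : Prop :=
  ∀ (f A q : Ideal (𝓞 k)) (R : Finset (PrI k)) (h : PrI k → 𝓞 k → 𝓞 k → ℝ), f ≠ ⊥ → A ≠ ⊥ →
    q ≠ ⊥ → idS R ^ 2 ∣ q → (∀ P ∈ R, PBC f A (P.1 ^ 2) (h P)) →
    mBC f A q (fun b c => ∏ P ∈ R, h P b c) = ∏ P ∈ R, mBC f A (P.1 ^ 2) (h P)

/-! ### Roots -/

/-- (NRI) the number of roots: bound, translation, periodicity. -/
def T_NRI : Prop :=
  ∀ (f I A : Ideal (𝓞 k)) (b c : 𝓞 k), f ≠ ⊥ → I ≠ ⊥ → (nr f I A b c : ℝ) ≤ nm I ∧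
    (A = ⊥ → nr f I A b c = 0) ∧
    (b ∈ f → ∀ j ∈ A * f, nr f I A (b + 2 * j) (j ^ 2 + b * j + c) = nr f I A b c) ∧
    (∀ x ∈ I * f, nr f I A (b + x) c = nr f I A b c) ∧
    (∀ x ∈ I * (A * f ^ 2), nr f I A b (c + x) = nr f I A b c)

/-- (GOD) the condition at one prime in terms of the coefficients. -/
def T_GOD : Prop :=
  ∀ (f : Ideal (𝓞 k)) (P : PrI k) (b c : 𝓞 k), f ≠ ⊥ → b ∈ f → c ∈ f ^ 2 →
    Dis f (4 * c - b ^ 2) ∧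
    (Dis (P.1 * f) (4 * c - b ^ 2) ↔
      ∃ s ∈ f, b + 2 * s ∈ P.1 * f ∧ s ^ 2 + b * s + c ∈ P.1 ^ 2 * f ^ 2)

/-- (CHD) the splitting depends only on the discriminant. -/
def T_CHD : Prop :=
  ∀ (f : Ideal (𝓞 k)) (b b' c c' : 𝓞 k), f ≠ ⊥ → b ∈ f → b' ∈ f → c ∈ f ^ 2 → c' ∈ f ^ 2 →
    4 * c - b ^ 2 = 4 * c' - b' ^ 2 → ∀ P : PrI k, chi f P b c = chi f P b' c'

open Classical in
/-- (NRM) the number of roots in local coordinates. -/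
def T_NRM : Prop :=
  ∀ (f A : Ideal (𝓞 k)) (P : PrI k) (φ α b c : 𝓞 k), f ≠ ⊥ → A ≠ ⊥ → φ ∈ f → φ ∉ P.1 * f →
    α ∈ A → α ∉ P.1 * A →
    (∀ m : ℕ, nr f (P.1 ^ m) A (φ * b) (α * φ ^ 2 * c) =
      ((Rs (P.1 ^ m)).filter (fun s => α * s ^ 2 + b * s + c ∈ P.1 ^ m)).card) ∧
    nr f P.1 ⊤ (φ * b) (α * φ ^ 2 * c) =
      ((Rs P.1).filter (fun s => s ^ 2 + b * s + α * c ∈ P.1)).card ∧
    (Dis (P.1 * f) (4 * (α * φ ^ 2 * c) - (φ * b) ^ 2) ↔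
      ∃ s, b + 2 * s ∈ P.1 ∧ s ^ 2 + b * s + α * c ∈ P.1 ^ 2) ∧
    (P.1 ∣ A → ∀ α₁ ∈ dvi A P.1, α₁ ∉ P.1 * dvi A P.1 →
      nr f P.1 (dvi A P.1) (φ * b) (α * φ ^ 2 * c) =
        ((Rs P.1).filter (fun s => α₁ * s ^ 2 + b * s ∈ P.1)).card)

end

/-! ### Finite rings -/

open Classical in
/-- the number of `s` with `α s ^ 2 + b s + c ∈ m` -/
noncomputable def rm {S : Type} [CommRing S] [Fintype S] (m : Ideal S) (α b c : S) : ℕ :=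
  (Finset.univ.filter (fun s : S => α * s ^ 2 + b * s + c ∈ m)).card

/-- the condition of maximality -/
def gm {S : Type} [CommRing S] (m : Ideal S) (α b c : S) : Prop :=
  ¬ ∃ s, b + 2 * s ∈ m ∧ s ^ 2 + b * s + α * c = 0

/-- the finite ring `O / P ^ 2` -/
structure LR (S : Type) [CommRing S] [Fintype S] (m : Ideal S) (N : ℕ) : Prop where
  one : 1 < N
  cardS : Fintype.card S = N ^ 2
  cardm : Nat.card m = N
  sq : ∀ x ∈ m, ∀ y ∈ m, x * y = 0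
  unit : ∀ x, x ∉ m ↔ IsUnit x

open Classical in
/-- (FRA) the polynomials with a unit as leading coefficient. -/
def T_FRA : Prop :=
  ∀ (S : Type) [CommRing S] [Fintype S] (m : Ideal S) (N : ℕ), LR S m N →
    ∀ (α : S) (Φ : ℕ → ℕ → ℕ → ℝ), IsUnit α →
      ∑ b : S, ∑ c : S, (if gm m α b c then
        Φ (rm m 1 b (α * c)) (rm m α b c) (rm ⊥ α b c) else 0) =
      (N : ℝ) ^ 3 * (N - 1) / 2 * (Φ (2 * N) (2 * N) 2 + Φ 0 0 0) +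
        (N : ℝ) ^ 2 * (N - 1) * Φ N N 0

open Classical in
/-- (FRB) the polynomials with a leading coefficient in the maximal ideal. -/
def T_FRB : Prop :=
  ∀ (S : Type) [CommRing S] [Fintype S] (m : Ideal S) (N : ℕ), LR S m N →
    ∀ (α α₁ : S) (Φ : ℕ → ℕ → ℕ → ℕ → ℝ), α ∈ m →
      (α ≠ 0 → IsUnit α₁ → ∑ b : S, ∑ c : S, (if gm m α b c then
        Φ (rm m 1 b (α * c)) (rm m α b c) (rm ⊥ α b c) (rm m α₁ b 0) else 0) =
        (N : ℝ) ^ 3 * (N - 1) * Φ (2 * N) N 1 (2 * N) + (N : ℝ) ^ 2 * (N - 1) * Φ N 0 0 N) ∧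
      (α = 0 → α₁ ∈ m → ∑ b : S, ∑ c : S, (if gm m α b c then
        Φ (rm m 1 b (α * c)) (rm m α b c) (rm ⊥ α b c) (rm m α₁ b 0) else 0) =
        (N : ℝ) ^ 3 * (N - 1) * Φ (2 * N) N 1 N)

section

variable (k : Type) [Field k] [NumberField k] [IsTotallyReal k]

open Classical in
/-- (LTO) the local table, principal coordinates. -/
def T_LTO : Prop :=
  ∀ (P : PrI k) (α α₁ : 𝓞 k) (Φ : ℕ → ℕ → ℕ → ℕ → ℝ) (F : 𝓞 k → 𝓞 k → ℝ),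
    (∀ b c, F b c = if ¬ ∃ s, b + 2 * s ∈ P.1 ∧ s ^ 2 + b * s + α * c ∈ P.1 ^ 2 then
      Φ ((Rs P.1).filter (fun s => s ^ 2 + b * s + α * c ∈ P.1)).card
        ((Rs P.1).filter (fun s => α * s ^ 2 + b * s + c ∈ P.1)).card
        ((Rs (P.1 ^ 2)).filter (fun s => α * s ^ 2 + b * s + c ∈ P.1 ^ 2)).card
        ((Rs P.1).filter (fun s => α₁ * s ^ 2 + b * s ∈ P.1)).card else 0) →
    (α ∉ P.1 → (∀ x y z t, Φ x y z t = Φ x y z 0) → mI ⊤ (P.1 ^ 2) (fun b => mI ⊤ (P.1 ^ 2) (F b)) =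
      (1 - 1 / np P) / 2 * (Φ 2 2 2 0 + Φ 0 0 0 0) + 1 / np P * (1 - 1 / np P) * Φ 1 1 0 0) ∧
    (α ∈ P.1 → α ∉ P.1 ^ 2 → α₁ ∉ P.1 → mI ⊤ (P.1 ^ 2) (fun b => mI ⊤ (P.1 ^ 2) (F b)) =
      (1 - 1 / np P) * Φ 2 1 1 2 + 1 / np P * (1 - 1 / np P) * Φ 1 0 0 1) ∧
    (α ∈ P.1 ^ 2 → α₁ ∈ P.1 → mI ⊤ (P.1 ^ 2) (fun b => mI ⊤ (P.1 ^ 2) (F b)) =
      (1 - 1 / np P) * Φ 2 1 1 1)

open Classical in
/-- (LT) the local table. -/
def T_LT : Prop :=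
  ∀ (f A : Ideal (𝓞 k)) (P : PrI k) (Φ : ℕ → ℕ → ℕ → ℕ → ℝ) (F : 𝓞 k → 𝓞 k → ℝ), f ≠ ⊥ →
    A ≠ ⊥ → (∀ b c, F b c = if ¬ Dis (P.1 * f) (4 * c - b ^ 2) then
      Φ (nr f P.1 ⊤ b c) (nr f P.1 A b c) (nr f (P.1 ^ 2) A b c)
        (if P.1 ∣ A then nr f P.1 (dvi A P.1) b c else 0) else 0) →
    (vi P A = 0 → mBC f A (P.1 ^ 2) F =
      (1 - 1 / np P) / 2 * (Φ 2 2 2 0 + Φ 0 0 0 0) + 1 / np P * (1 - 1 / np P) * Φ 1 1 0 0) ∧
    (vi P A = 1 → mBC f A (P.1 ^ 2) F =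
      (1 - 1 / np P) * Φ 2 1 1 2 + 1 / np P * (1 - 1 / np P) * Φ 1 0 0 1) ∧
    (vi P A = 2 → mBC f A (P.1 ^ 2) F = (1 - 1 / np P) * Φ 2 1 1 1)

/-! ### Small primes -/

/-- (LOC) the local means. -/
def T_LOC : Prop :=
  ∀ (f e A : Ideal (𝓞 k)) (P : PrI k), f ≠ ⊥ → e ≠ ⊥ → A ≠ ⊥ →
    (∀ t : ℕ, t ≤ 2 → mBC f A (P.1 ^ 2) (wl f P t e A) = gl (1 / np P) t (vi P A) (vi P e)) ∧
    (vi P A = 0 → mBC f A (P.1 ^ 2) (wf f P 0) = 1 - (1 / np P) ^ 2) ∧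
    (vi P A = 1 → mBC f A (P.1 ^ 2) (wf f P 1) = -(1 - (1 / np P) ^ 2))

/-- (GLF) the local identity. -/
def T_GLF : Prop :=
  (∀ (x : ℝ) (t i j : ℕ), i ≤ 2 → j ≤ 2 →
    gl x t i j = ∑ i' ∈ Finset.range (i + 1), ∑ j' ∈ Finset.range (j + 1), Fl x t i' j') ∧
  ∀ x : ℝ, ∑ i ∈ Finset.range 3, ∑ j ∈ Finset.range 3,
    (Fl x 0 i j + 2 * Fl x 1 i j + Fl x 2 i j) * x ^ (i + j) = (1 - x) ^ 3 * (1 - x ^ 2)

open Classical in
/-- (WLP) the weights at the small primes are products of local weights. -/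
def T_WLP : Prop :=
  ∀ (f e A : Ideal (𝓞 k)), f ≠ ⊥ → A ≠ ⊥ →
    (∀ (P : PrI k) (t : ℕ), PBC f A (P.1 ^ 2) (wl f P t e A) ∧ PBC f A (P.1 ^ 2) (wf f P t)) ∧
    ∀ (R n₁ n₂ : Finset (PrI k)) (b c : 𝓞 k), n₁ ⊆ R → n₂ ⊆ R → b ∈ f → c ∈ A * f ^ 2 →
      wN f R n₁ n₂ e A b c = ∏ P ∈ R, wl f P (tt n₁ n₂ P) e A b c ∧
      wF f R n₁ e A b c = ∏ P ∈ R, wf f P (if P ∈ n₁ then 1 else 0) b c

open Classical in
/-- (LOP) the means at all small primes together. -/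
def T_LOP : Prop :=
  ∀ (f e A : Ideal (𝓞 k)) (R n₁ n₂ : Finset (PrI k)), f ≠ ⊥ → A ≠ ⊥ → n₁ ⊆ R → n₂ ⊆ R →
    wbar f (qN R) (wN f R n₁ n₂) e A = ∏ P ∈ R, mBC f A (P.1 ^ 2) (wl f P (tt n₁ n₂ P) e A) ∧
    wbar f (qN R) (wF f R n₁) e A =
      ∏ P ∈ R, mBC f A (P.1 ^ 2) (wf f P (if P ∈ n₁ then 1 else 0))

open Classical in
/-- (FMD) the means of the first moment. -/
def T_FMD : Prop :=
  ∀ (f : Ideal (𝓞 k)) (R : Finset (PrI k)), f ≠ ⊥ →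
    (∀ (n m : Finset (PrI k)), n ⊆ R → Disjoint m R →
      wbar f (qN R) (wF f R n) ⊤ (idS m * idS n) = wbar f (qN R) (wF f R n) ⊤ (idS n)) ∧
    ∑ n ∈ R.powerset, wbar f (qN R) (wF f R n) ⊤ (idS n) / nS n =
      (∏ P ∈ R, (1 - 1 / np P)) * (2 ^ dg k * dR R)

/-- (ANF) the coefficients at the small primes depend only on the discriminant; the middle
coefficients of a form. -/
def T_ANF : Prop :=
  ∀ (f : Ideal (𝓞 k)) (D b b' : 𝓞 k), f ≠ ⊥ → b ∈ f → b' ∈ f → b ^ 2 + D ∈ ni k 4 * f ^ 2 →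
    b' ^ 2 + D ∈ ni k 4 * f ^ 2 → (∀ R n : Finset (PrI k),
      an f R n b (q4 (b ^ 2 + D)) = an f R n b' (q4 (b' ^ 2 + D))) ∧
    4 * q4 (b ^ 2 + D) = b ^ 2 + D ∧ 4 * q4 (b ^ 2 + D) - b ^ 2 = D ∧ q4 (b ^ 2 + D) ∈ f ^ 2

open Classical in
/-- (FMZ) the mollified value of the principal form. -/
def T_FMZ : Prop :=
  ∀ (f : Ideal (𝓞 k)) (R : Finset (PrI k)), f ≠ ⊥ →
    ∀ (P : Polynomial ℝ) (M : ℝ) (D : 𝓞 k), 1 ≤ M → tp D → good f R D →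
      Z1 P M f R (bD f D) D = ∑ n ∈ R.powerset, ∑ m ∈ DM k M,
        cm P M R m / Real.sqrt (nS m * nS n) * ∑ b ∈ bs f (idS m * idS n) D,
          wF f R n ⊤ (idS m * idS n) b (q4 (b ^ 2 + D)) *
            zf (idS m * idS n) f (em b) (em D)

open Classical in
/-- (ZFP) the central value is invariant under translations. -/
def T_ZFP : Prop :=
  ∀ (A f : Ideal (𝓞 k)) (D b j : 𝓞 k), f ≠ ⊥ → A ≠ ⊥ → tp D → j ∈ A * f →
    zf A f (em (b + 2 * j)) (em D) = zf A f (em b) (em D)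

open Classical in
/-- (SDS) sums over the support of the coefficients. -/
def T_SDS : Prop :=
  ∀ (M : ℝ) (R : Finset (PrI k)) (P : Polynomial ℝ) (g : Finset (PrI k) → Finset (PrI k) → ℝ),
    ∑ m ∈ SD M R, cm P M R (m \ R) * g (m ∩ R) (m \ R) =
      ∑ n ∈ R.powerset, ∑ m ∈ DM k M, cm P M R m * g n m

/-! ### Average of the local weights over the coefficients -/

/-- (NRC) the mean of the number of roots over the last coefficient. -/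
def T_NRC : Prop :=
  ∀ (f I J A : Ideal (𝓞 k)) (b : 𝓞 k), f ≠ ⊥ → I ≠ ⊥ → J ≠ ⊥ → A ≠ ⊥ → I ∣ J → b ∈ f →
    mI (A * f ^ 2) J (fun c => (nr f I A b c : ℝ)) = 1

/-- (NRA) the number of roots at a prime divisor of the leading coefficient. -/
def T_NRA : Prop :=
  ∀ (f A : Ideal (𝓞 k)) (P : PrI k), f ≠ ⊥ → A ≠ ⊥ → P.1 ∣ A →
    mI f P.1 (fun b => (nr f P.1 (dvi A P.1) b 0 : ℝ)) = 2 - 1 / np P ∧
    ∀ b ∈ f, (∀ c ∈ A * f ^ 2, nr f P.1 (dvi A P.1) b c = nr f P.1 (dvi A P.1) b 0) ∧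
      (∀ x ∈ P.1 * f, nr f P.1 (dvi A P.1) (b + x) 0 = nr f P.1 (dvi A P.1) b 0) ∧
      ∀ j ∈ A * f, nr f P.1 (dvi A P.1) (b + 2 * j) 0 = nr f P.1 (dvi A P.1) b 0

open Classical in
/-- the averaged weight for fixed middle coefficient -/
noncomputable def Ncb {k : Type} [Field k] [NumberField k] (f : Ideal (𝓞 k))
    (m₁ m₂ : Finset (PrI k)) (e A : Ideal (𝓞 k)) (b : 𝓞 k) : ℝ :=
  ∏ P ∈ m₁ ∪ m₂,
    (if P ∈ m₁ ∧ P ∈ m₂ then
      ((if P.1 ^ 2 ∣ A then 1 else 0) +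
        (if P.1 ∣ A ∧ P.1 ∣ e then (nr f P.1 (dvi A P.1) b 0 : ℝ) else 0) +
        (if P.1 ∣ e then 1 else 0) + (if P.1 ^ 2 ∣ e then 1 else 0) : ℝ)
    else ((if P.1 ∣ A then 1 else 0) + (if P.1 ∣ e then 1 else 0) : ℝ))

open Classical in
/-- (LC) the average of the local weights over the last coefficient. -/
def T_LC : Prop :=
  ∀ (f q e A : Ideal (𝓞 k)) (m₁ m₂ : Finset (PrI k)) (b : 𝓞 k) (w : 𝓞 k → ℝ), f ≠ ⊥ → q ≠ ⊥ →
    e ≠ ⊥ → A ≠ ⊥ → b ∈ f → (∀ P ∈ m₁ ∪ m₂, ¬ P.1 ∣ q) → Per (A * f ^ 2) q w →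
    Per (A * f ^ 2) (q * e) (fun c => w c * Nw f m₁ m₂ e A b c) ∧
    mI (A * f ^ 2) (q * e) (fun c => w c * Nw f m₁ m₂ e A b c) =
      mI (A * f ^ 2) q w * Ncb f m₁ m₂ e A b

open Classical in
/-- (LB) the average of the local weights over the middle coefficient. -/
def T_LB : Prop :=
  ∀ (f q e A : Ideal (𝓞 k)) (m₁ m₂ : Finset (PrI k)) (w : 𝓞 k → ℝ), f ≠ ⊥ → q ≠ ⊥ →
    e ≠ ⊥ → A ≠ ⊥ → (∀ P ∈ m₁ ∪ m₂, ¬ P.1 ∣ q) → Per f q w → Per f (ni k 2 * A) w →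
    Per f (ni k 2 * A) (fun b => w b * Ncb f m₁ m₂ e A b) ∧
    Per f (q * idS (m₁ ∩ m₂)) (fun b => w b * Ncb f m₁ m₂ e A b) ∧
    mI f (ni k 2 * A) (fun b => w b * Ncb f m₁ m₂ e A b) = mI f q w * Nb m₁ m₂ e A

open Classical in
/-- (FDN) the density of the enlarged family. -/
def T_FDN : Prop :=
  ∀ (f : Ideal (𝓞 k)) (R : Finset (PrI k)), f ≠ ⊥ → RA k R →
    (∀ x, ∀ y ∈ qN R * f ^ 2, (good f R (x + y) ↔ good f R x)) ∧
    (∑ x ∈ (Rs (qN R * f ^ 2)).filter (fun x => x ∈ f ^ 2), (if good f R x then (1 : ℝ) else 0)) /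
      nm (qN R) = dR R

end

end Pool.Agent.H91.NV
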